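import Mathlib
import Pool.Agent.H8.BR5

namespace Pool.Agent.Results.MP_155eb7_gt.Product

/-- A base is resolvable if it splits into two disjoint subfamilies that are both bases. -/
def Resolvable {X : Type} [TopologicalSpace X] (B : Set (Set X)) : Prop :=
  ∃ B0 B1 : Set (Set X), B = B0 ∪ B1 ∧ Disjoint B0 B1 ∧
    TopologicalSpace.IsTopologicalBasis B0 ∧ TopologicalSpace.IsTopologicalBasis B1

/-- A space is base resolvable if every base of it is resolvable. -/
def BaseResolvable (X : Type) [TopologicalSpace X] : Prop :=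
  ∀ B : Set (Set X), TopologicalSpace.IsTopologicalBasis B → Resolvable B

theorem result :
    ∃ (X Y : Type) (_ : TopologicalSpace X) (_ : TopologicalSpace Y),
      T2Space X ∧ T2Space Y ∧
      (∀ x : X, ¬ IsOpen ({x} : Set X)) ∧ (∀ y : Y, ¬ IsOpen ({y} : Set Y)) ∧
      BaseResolvable X ∧ BaseResolvable Y ∧ ¬ BaseResolvable (X × Y) :=
  ⟨H8.BP.M, H8.BP.Y, inferInstance, inferInstance, inferInstance, inferInstance,
    H8.BP.isolM, H8.BP.isolY, H8.BP.resolv H8.BP.isolM H8.BP.dataM,
    H8.BP.resolv H8.BP.isolY H8.BP.dataY, fun h =>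
      let ⟨B0, B1, hu, hd, h0, h1⟩ := h _ H8.BP.basis
      H8.BP.nonres B0 B1 hu hd h0 h1⟩

end Pool.Agent.Results.MP_155eb7_gt.Product
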